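import Pool.Agent.P.MP_08fd93_co.FY.M0
import Pool.Agent.P.MP_08fd93_co.FP2.R3

/-! Depth two: the mirror image of a frame with one orbit of short tails. -/

set_option autoImplicit false

namespace Pool.Agent.P.MP_08fd93_co.FY

open OV FZ FP2 FW

variable {J : Type} {G : TD J} {v z la lb lc ld e x s s' k y : Vx J} {j : ℤ}

theorem mir_nx_nx (h : Rows G.toFD) (he : e ∈ G.LA) : (mirT G).nx (G.nx e) = e := by
  obtain ⟨n1, n2, -⟩ := h.nx_mem he
  rw [mirT_nx, h.uw.lf _ _ n1, n2, add_sub_cancel_right, h.l_rho he]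

theorem st_mir (h : ST G) : ST (mirT G) :=
  ⟨tfrm_mir h.tf, h.pr, h.kq, fun k hk => by
    have := h.sh k hk
    show -G.ρ (G.xl k) ≤ -G.ρ (G.xr k) + 1
    omega⟩

theorem isA_mir (h : Rows G.toFD) (i : IsD G e) : IsA (mirT G) (G.nx e) := by
  refine ⟨h.la (h.nx_mem i.1).1, ?_⟩
  rw [mir_nx_nx h i.1]
  exact ⟨i.2.1, i.2.2.symm⟩

theorem isB_mir (h : Rows G.toFD) (i : IsC G e) : IsB (mirT G) (G.nx e) := by
  refine ⟨h.la (h.nx_mem i.1).1, ?_⟩
  rw [mir_nx_nx h i.1]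
  exact ⟨i.2.1, i.2.2.symm⟩

theorem isC_mir (h : Rows G.toFD) (i : IsB G e) : IsC (mirT G) (G.nx e) := by
  refine ⟨h.la (h.nx_mem i.1).1, ?_⟩
  rw [mir_nx_nx h i.1]
  exact ⟨i.2.1, i.2.2.symm⟩

theorem isD_mir (h : Rows G.toFD) (i : IsA G e) : IsD (mirT G) (G.nx e) := by
  refine ⟨h.la (h.nx_mem i.1).1, ?_⟩
  rw [mir_nx_nx h i.1]
  exact ⟨i.2.1, i.2.2.symm⟩

/-- up to the first static parent the chains of left and of right feet agree -/
theorem ft_mir (h : ST G) (n : ℕ) (m : G.an ((FT G).an^[n] x) ∈ G.V) :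
    ∃ i, G.an ((FT G).an^[i] x) ∈ G.V ∧ (FT (mirT G)).an^[i] x = (FT G).an^[i] x ∧
      ∀ t < i, G.an ((FT G).an^[t] x) ∉ G.V := by
  classical
  have ex : ∃ n, G.an ((FT G).an^[n] x) ∈ G.V := ⟨n, m⟩
  refine ⟨Nat.find ex, Nat.find_spec ex, ?_, fun t ht => Nat.find_min ex ht⟩
  have key : ∀ i, i ≤ Nat.find ex → (FT (mirT G)).an^[i] x = (FT G).an^[i] x := by
    intro i
    induction i with
    | zero => exact fun _ => rfl
    | succ i ih =>
      intro hi
      rw [Function.iterate_succ_apply', Function.iterate_succ_apply', ih (by omega),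
        h.ft_o (Nat.find_min ex hi)]
      exact (h.tf.xo _ (Nat.find_min ex hi)).2.1
  exact key _ le_rfl

theorem tq_mir (h : TQ G v z la lb lc ld) (S : FP2.Sl G.Γ G.η) :
    TQ (mirT G) v z (G.nx ld) (G.nx lc) (G.nx lb) (G.nx la) := by
  have R := h.rows
  refine ⟨st_mir h.st, h.eV, h.ne, h.fv, h.mv, ⟨isA_mir R h.hd.1, ?_⟩, ⟨isB_mir R h.hc.1, ?_⟩,
    ⟨isC_mir R h.hb.1, h.hb.2⟩, ⟨isD_mir R h.ha.1, h.ha.2⟩, h.n4, fun x hx => ?_, fun q hq e => ?_⟩
  · rw [mir_nx_nx R h.hd.1.1]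
    exact h.hd.2
  · rw [mir_nx_nx R h.hc.1.1]
    exact h.hc.2
  · obtain ⟨n, m⟩ := h.acy x hx
    obtain ⟨i, a, b, -⟩ := ft_mir h.st n m
    exact ⟨i, by rw [b]; exact a⟩
  · obtain ⟨n, c, m⟩ := h.kid q hq e
    obtain ⟨i, a, b, k⟩ := ft_mir h.st n (x := q) (m ▸ h.st.tf.vtr c v h.vV)
    have key : ∀ t ≤ i, (FT G).an^[t] q ∈ G.L (-t) ∧ G.Γ.dist q ((FT G).an^[t] q) ≤ t := by
      intro t
      induction t with
      | zero => exact fun _ => ⟨hq, SimpleGraph.dist_self.le⟩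
      | succ t ih =>
        intro ht
        obtain ⟨a1, a2⟩ := ih (by omega)
        have a3 := h.st.tf.an_l a1 (h.st.pr _) (k t ht)
        have a4 := dist_tri S.fine.pl q ((FT G).an^[t] q) (G.an ((FT G).an^[t] q))
        rw [dist_adj (h.st.tf.aa _ _ a1 (h.st.pr _)).1] at a4
        rw [Function.iterate_succ_apply', h.st.ft_o (k t ht)]
        exact ⟨by simpa [sub_eq_add_neg, add_comm] using a3, by omega⟩
    obtain ⟨c', r | r⟩ := h.k_tr a
    · exact ⟨i, c', by rw [b]; exact r⟩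
    exfalso
    obtain ⟨a1, a2⟩ := key i le_rfl
    have a3 := h.st.tf.an_f a1 (h.st.pr _) a
    have a4 := (h.st.tf.aa _ _ a1 (h.st.pr _)).1
    rw [r] at a3 a4
    rw [R.wp.per, h.fz] at a3
    have a5 := S.back z (a := c') fun o => by
      rw [o, map_zero] at a3
      omega
    have a6 := dist_tri S.fine.pl (tr c' z) ((FT G).an^[i] q) z
    have a7 := dist_tri S.fine.pl ((FT G).an^[i] q) q z
    have e : G.Γ.Adj z q := e
    rw [dist_adj a4.symm] at a6
    rw [dist_adj e.symm, SimpleGraph.dist_comm (v := q)] at a7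
    omega

theorem im_mir (h : Rows G.toFD) (hs : s ∈ G.L j) (hs' : s' ∈ G.L j) :
    x ∈ (mirT G).Im s' s ↔ x ∈ G.Im s s' := by
  have e : G.f s' = G.f s := (h.uw.lf _ _ hs').trans (h.uw.lf _ _ hs).symm
  show x ∈ G.S (G.f s') ∧ (∀ t ∈ Nb G.Γ (G.Cp (G.f s') x), ¬ (mirT G).Lf (G.f s') _ s' t ∧
    ¬ (mirT G).Rg (G.f s') _ s t) ↔ _
  rw [e]
  refine and_congr_right fun _ => forall₂_congr fun t _ => and_comm.trans (and_congr
    (not_congr ?_) (not_congr ?_))
  · exact or_congr (and_congr_right fun _ => neg_lt_neg_iff) (or_congr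
      (and_congr_right fun _ => neg_lt_neg_iff) (and_congr_right fun _ => and_congr_right fun _ =>
        and_congr_right fun _ => neg_lt_neg_iff))
  · exact or_congr (and_congr_right fun _ => neg_lt_neg_iff) (or_congr
      (and_congr_right fun _ => neg_lt_neg_iff) (and_congr_right fun _ => and_congr_right fun _ =>
        and_congr_right fun _ => neg_lt_neg_iff))

end Pool.Agent.P.MP_08fd93_co.FY
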