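import Pool.Agent.P.MP_08fd93_co.FW.T4
import Pool.Agent.P.MP_08fd93_co.FY.M1
import Pool.Agent.P.MP_08fd93_co.FP.P0

/-! Depth two: frames whose lines are those of the height with one root. -/

set_option autoImplicit false

namespace Pool.Agent.P.MP_08fd93_co.FY

open OV FZ FP2 FW

variable {J : Type} {G G' G'' : TD J} {v z u p q t x y L R L' R' : Vx J} {g g' : Vx J → ℤ}
  {j : ℤ}

/-- The lines do not depend on the second root. -/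
structure PW (G : TD J) (v : Vx J) : Prop where
  pl : ∀ x ∈ G.L 1, (∀ y ∈ G.L 0, ¬ G.Γ.Adj x y) → ∃ c, G.Γ.Adj x (tr c v)
  sep : ∀ t, G.Γ.Adj v t → ∃ u, ∃ p ∈ G.L 0, G.Γ.Adj v u ∧ G.Γ.Adj u p ∧ ¬ G.Γ.Adj t p
  oth : ∀ u q, G.Γ.Adj v u → u ∉ G.L 1 → q ∈ G.L 0 → G.Γ.Adj u q →
    ∃ g', TR G.Γ G.η v u q g' ∧ UU G.Γ (rz v u g') = UU G.Γ G.f

/-- `t` has a neighbour on the line zero. -/
def Ft (G : TD J) (t : Vx J) : Prop := ∃ q ∈ G.L 0, G.Γ.Adj t q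

/-- `t` sees both ends of an edge of the line one, the root only one end. -/
def TPx (G : TD J) (v t : Vx J) : Prop := ∃ a ∈ G.L 1, ∃ y ∈ G.L 1, G.Γ.Adj a y ∧ G.Γ.Adj v y ∧
  ¬ G.Γ.Adj v a ∧ G.Γ.Adj t a ∧ G.Γ.Adj t y

def NoTP (G : TD J) (v : Vx J) : Prop := ∀ t, G.Γ.Adj v t → t ∉ G.L 1 → Ft G t → ¬ TPx G v t

/-- The root sees `a`, or no anchored neighbour of the root sees `a` and `b`. -/
def NP (G : TD J) (v a b : Vx J) : Prop :=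
  G.Γ.Adj v a ∨ ∀ t, G.Γ.Adj v t → Ft G t → G.Γ.Adj t a → ¬ G.Γ.Adj t b

/-- A property of such a frame that gives a colouring. -/
def Pd (P : ∀ {J : Type}, TD J → Vx J → Vx J → Vx J → Vx J → Prop) : Prop :=
  ∀ (J : Type) [Fintype J] (G : TD J) (v z : Vx J) (g : Vx J → ℤ) (L R : Vx J),
    PF G v z g L R → PW G v → P G v z L R → ∃ c, Col1 G.Γ ∅ c

/-- a long second root -/
def S_LZ : Prop := Pd fun G v z _ _ => G.ρ (G.xl z) + 1 < G.ρ (G.xr z) ∧ (TPx G v z ∨ NoTP G v)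

/-- the root does not see the right end, no top triangle on the left -/
def S_A : Prop := Pd fun G v _ L R => ¬ G.Γ.Adj v (G.nx R) ∧ NP G v L (G.nx L)

theorem pw_mir (w : PW G v) : PW (mirT G) v := ⟨w.pl, w.sep, w.oth⟩

theorem pw_chg (w : PW G v) (an : Vx J → Vx J) : PW (chgT G an) v := ⟨w.pl, w.sep, w.oth⟩

theorem pw_sm (w : PW G v) (s : Sm G G') : PW G' v := by
  refine ⟨?_, ?_, ?_⟩
  · rw [s.eL, s.eL, s.eΓ]
    exact w.pl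
  · rw [s.eL, s.eΓ]
    exact w.sep
  · rw [s.eL, s.eL, s.eΓ, s.eη, s.eU]
    exact w.oth

theorem ft_sm (s : Sm G G') : Ft G' t ↔ Ft G t := by
  unfold Ft
  rw [s.eL, s.eΓ]

theorem tpx_sm (s : Sm G G') : TPx G' v t ↔ TPx G v t := by
  unfold TPx
  rw [s.eL, s.eΓ]

theorem notp_sm (s : Sm G G') : NoTP G' v ↔ NoTP G v := by
  unfold NoTP
  simp only [ft_sm s, tpx_sm s, s.eL, s.adj]

theorem np_sm (s : Sm G G') : NP G' v x y ↔ NP G v x y := by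
  unfold NP
  simp only [ft_sm s, s.adj]

theorem sm_refl (G : TD J) : Sm G G := ⟨rfl, rfl, rfl, rfl, rfl, rfl, rfl, fun _ _ _ => rfl⟩

theorem sm_mir (s : Sm G G') : Sm (mirT G) (mirT G') :=
  ⟨s.eΓ, s.eη, congrArg Neg.neg s.ew, by simp only [mirT, s.el], by simp only [mirT, s.eρ], s.en,
    s.eU, s.ea⟩

theorem sm_trans (h : PF G v z g L R) (h' : PF G' v u g' L' R')
    (s : Sm G G') (s' : Sm G' G'') : Sm G G'' := by
  refine ⟨s'.eΓ.trans s.eΓ, s'.eη.trans s.eη, s'.ew.trans s.ew, s'.el.trans s.el,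
    s'.eρ.trans s.eρ, s'.en.trans s.en, ?_, fun x c n => ?_⟩
  · rw [← s.eU, ← s.eΓ, s'.eU]
  · have m : x ∈ G'.L (G.f x) := s.eL _ ▸ c
    rw [s'.ea x (h'.rows.la m) (mt (Sm.anV h h' s c).1 n), s.ea x c n]

theorem pf_mir (h : PF G v z g L R) : PF (mirT G) v z g (G.nx R) (G.nx L) :=
  ⟨h.rt, h.an2, fr2_mir h.fr, (h.rows.nx_mem h.R1).1, (h.rows.nx_mem h.L1).1,
    isA_mir h.rows h.iD, isD_mir h.rows h.iA, by rw [mir_nx_nx h.rows h.iD.1]; exact h.nR, h.nL⟩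

theorem pf_an (h : PF G v z g L R) {an : Vx J → Vx J} (A : An2 G.Γ v z g an) :
    PF (chgT G an) v z g L R := by
  obtain ⟨p, T⟩ := h.rt
  have nk : ∀ x ∈ G.L 1, x ∉ Kt v z := fun x hx k => h.tf.l_nv hx ((h.eV x).2 k)
  have key : ∀ x ∈ G.L 1, G.md (an x) = z ↔ G.nk x = z := fun x hx =>
    ⟨fun e => by
      rw [TD.nk, an2_pure T A h.an2 (nk x hx) ((h.eV _).1 (h.tf.md_v.1 (e ▸ h.zV)))]
      exact e, fun e => by
      rw [an2_pure T h.an2 A (nk x hx) ((h.eV _).1 (h.tf.nk_v.1 (e ▸ h.zV)))]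
      exact e⟩
  have a := (key _ (h.rows.nx_mem h.L1).1).2 h.nL
  have b := (key _ h.R1).2 h.nR
  exact ⟨⟨p, T⟩, A, fr2_chg h.fr T h.an2 A, h.L1, h.R1,
    ⟨h.iA.1, h.tf.md_v.1 (a ▸ h.zV), fun e => h.iA.2.2 (((key _ h.L1).1 (e.trans a)).trans h.nL.symm)⟩,
    ⟨h.iD.1, h.tf.md_v.1 (b ▸ h.zV), fun e => h.iD.2.2
      (h.nR.trans ((key _ (h.rows.nx_mem h.R1).1).1 (e.symm.trans b)).symm)⟩, a, b⟩

/-- the parent of `x` is changed to `p` -/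
theorem pf_chg (h : PF G v z g L R) (hx : x ∈ G.L 1) (hp : p ∈ G.L 0) (e : G.Γ.Adj x p) :
    PF (chgT G (FR.upa G.an x p)) v z g L R :=
  let ⟨_, T⟩ := h.rt
  have k := T.l_par h.uw (h.eL 1 ▸ hx) (h.eL 0 ▸ hp)
  pf_an h (an2_upa T h.an2 e k.1 k.2)

theorem im_chg {an : Vx J → Vx J} (a : an x = G.an x) (b : an y = G.an y) :
    (chgT G an).Im x y = G.Im x y := by
  ext u
  simp only [TD.Im, TD.Cl, TD.Lf, TD.Rg, TD.Ct, chgT, a, b]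
  rfl

/-- a short second root -/
theorem pf_tq [Fintype J] (h : PF G v z g L R) (l : G.ρ (G.xr z) ≤ G.ρ (G.xl z) + 1) :
    ∃ lb lc, TQ G v z L lb lc R := by
  obtain ⟨p, T⟩ := h.rt
  obtain ⟨la, lb, lc, ld, k⟩ := tq_ex h.fr T h.an2 l
  obtain rfl := h.eqL k.ha.1.1 k.ha.2 (k.ha.2 ▸ k.ha.1.2.2)
  obtain rfl := h.eqR k.hd.1.1 k.hd.2 (k.hd.2 ▸ k.hd.1.2.2.symm)
  exact ⟨lb, lc, k⟩

section

variable (h : PF G v z g L R) (w : PW G v)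
include h w

/-- every vertex over the neck sees the root -/
theorem kid1 (hx : x ∈ G.L 1) (e : G.nk x = z) : G.Γ.Adj v x := by
  obtain ⟨c, k⟩ := w.pl x hx ((h.pure hx).1 (h.tf.nk_v.1 (e ▸ h.zV)))
  rcases h.an_of e with a | a
  · exact a ▸ (h.aa hx).symm
  · exact h.sl.near3 (x := tr c v) (y := v) rfl k.symm (a ▸ h.aa hx) h.vz.symm ▸ k.symm

theorem vL : G.Γ.Adj v (G.nx L) := kid1 h w (h.rows.nx_mem h.L1).1 h.nL

theorem vR : G.Γ.Adj v R := kid1 h w h.R1 h.nR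

theorem rungL : G.an L ∉ G.V := fun k => by
  obtain ⟨c, a⟩ := w.pl L h.L1 ((h.pure h.L1).1 k)
  have e := h.sl.near3 (x := tr c v) (y := v) rfl a.symm (h.rows.nx_mem h.L1).2.2 (vL h w).symm
  exact h.iA.2.2 ((h.kid h.L1 (e ▸ a.symm) k).trans h.nL.symm)

theorem rungR : G.an (G.nx R) ∉ G.V := rungL (G := mirT G) (pf_mir h) (pw_mir w)

theorem anL0 : G.an L ∈ G.L 0 := h.tf.an_l h.L1 (h.pr _) (rungL h w)

theorem anR0 : G.an (G.nx R) ∈ G.L 0 := anL0 (G := mirT G) (pf_mir h) (pw_mir w)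

/-- the feet of an inner vertex of a side cell -/
theorem inL (hu : u ∈ G.Im L (G.nx L)) (e : G.Γ.Adj u p) (hp : p ∈ G.L 0) :
    G.ρ (G.an L) ≤ G.ρ p ∧ G.ρ p ≤ G.ρ (G.xl z) :=
  (h.tf.xo _ (rungL h w)).2.1 ▸ h.imL hu e hp

theorem inR (hu : u ∈ G.Im R (G.nx R)) (e : G.Γ.Adj u p) (hp : p ∈ G.L 0) :
    G.ρ (G.xr z) ≤ G.ρ p ∧ G.ρ p ≤ G.ρ (G.an (G.nx R)) :=
  (h.tf.xo _ (rungR h w)).1 ▸ h.imR hu e hp

omit w in
/-- the anchored neighbours of the root -/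
theorem pa (e : G.Γ.Adj v u) (hp : p ∈ G.L 0) (a : G.Γ.Adj u p) : u = z ∨ u = L ∨ u = G.nx R ∨
    u ∈ G.Im L (G.nx L) ∨ u ∈ G.Im R (G.nx R) := by
  by_cases c : u = z
  · exact Or.inl c
  by_cases o : u ∈ G.L 1
  · exact Or.inr ((h.row_nb' o e hp a).imp_right Or.inl)
  · exact Or.inr (Or.inr (Or.inr (h.loc e c o hp a)))

/-- the two side edges do not depend on the second root -/
theorem sm_lr (h' : PF G' v u g' L' R') (s : Sm G G') : L' = L ∧ R' = R := by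
  have key : ∀ x ∈ G.L 1, G.nk x = z → G'.nk x = u := fun x hx e =>
    h'.kid (s.eL 1 ▸ hx) (s.adj.2 (kid1 h w hx e))
      ((Sm.anV h h' s hx).2 (h.tf.nk_v.1 (e ▸ h.zV)))
  have no : ∀ x ∈ G.L 1, G.an x ∉ G.V → G'.nk x ≠ u := fun x hx n e =>
    n ((Sm.anV h h' s hx).1 (h'.tf.nk_v.1 (e ▸ h'.zV)))
  refine ⟨(h'.eqL (h'.rows.la (s.eL 1 ▸ h.L1)) ?_ (no _ h.L1 (rungL h w))).symm,
    (h'.eqR (h'.rows.la (s.eL 1 ▸ h.R1)) (key _ h.R1 h.nR) ?_).symm⟩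
  · rw [Sm.nx h h' s h.L1]
    exact key _ (h.rows.nx_mem h.L1).1 h.nL
  · rw [Sm.nx h h' s h.R1]
    exact no _ (h.rows.nx_mem h.R1).1 (rungR h w)

/-- the frame of another anchored neighbour -/
theorem oth [Fintype J] (e : G.Γ.Adj v u) (o : u ∉ G.L 1) (f : Ft G u) :
    ∃ G' g', PF G' v u g' L R ∧ Sm G G' := by
  obtain ⟨q, hq, a⟩ := f
  obtain ⟨g', T, k⟩ := w.oth u q e o hq a
  obtain ⟨G', L', R', h', s⟩ := h.other T (k.trans (by rw [h.fr.ef]))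
  obtain ⟨rfl, rfl⟩ := sm_lr h w h' s
  exact ⟨G', g', h', s⟩

/-- a neighbour of the root off the line sees nothing left of the left edge -/
theorem farL (e : G.Γ.Adj v t) (o : t ∉ G.L 1) (hx : x ∈ G.L 1) (l : G.ρ x < G.ρ L) :
    ¬ G.Γ.Adj t x := fun a => by
  obtain ⟨n1, n2, -⟩ := h.rows.nx_mem h.L1
  have m : t ∈ G.St 1 := by
    by_cases c : t = z
    exacts [c ▸ h.tf.v_st h.zV h.fz, (h.nb_s e c o).1]
  refine h.tf.btw hx h.L1 (h.pr _) n1 l (by omega) (E := {v} ∪ {t}) ?_ (Set.toFinite _)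
    ((isConn_single v).union_nb (by rintro _ rfl; exact ⟨v, rfl, e.symm⟩)) ⟨t, Or.inr rfl, a.symm⟩
    ⟨v, Or.inl rfl, (vL h w).symm⟩ (Set.disjoint_left.2 fun _ _ k => rungL h w (h.tf.ct_v k))
  rintro _ (rfl | rfl)
  exacts [h.tf.v_st h.vV h.fv, m]

theorem farR (e : G.Γ.Adj v t) (o : t ∉ G.L 1) (hx : x ∈ G.L 1) (l : G.ρ (G.nx R) < G.ρ x) :
    ¬ G.Γ.Adj t x   := farL (G := mirT G) (pf_mir h) (pw_mir w) e o hx (neg_lt_neg l)

/-- a top triangle lies under one of the two side edges -/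
theorem tp_side (e : G.Γ.Adj v t) (o : t ∉ G.L 1) (k : TPx G v t) :
    (¬ G.Γ.Adj v L ∧ G.Γ.Adj t L ∧ G.Γ.Adj t (G.nx L)) ∨
      (¬ G.Γ.Adj v (G.nx R) ∧ G.Γ.Adj t (G.nx R) ∧ G.Γ.Adj t R) := by
  obtain ⟨a, a1, y, y1, ay, vy, va, ta, ty⟩ := k
  obtain ⟨n1, n2, -⟩ := h.rows.nx_mem h.L1
  obtain ⟨m1, m2, -⟩ := h.rows.nx_mem h.R1
  have r := (h.rows.adj_iff a1 y1).1 ay
  have lt := h.lt
  have c : ¬ (G.ρ L < G.ρ a ∧ G.ρ a ≤ G.ρ R) := fun c => va (kid1 h w a1 (h.nk_of a1 c.1 c.2))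
  have c1 : ¬ G.ρ a < G.ρ L := fun c => farL h w e o a1 c ta
  have c2 : ¬ G.ρ (G.nx R) < G.ρ a := fun c => farR h w e o a1 c ta
  have c3 : ¬ G.ρ y < G.ρ L := fun c => farL h w e o y1 c ty
  have c4 : ¬ G.ρ (G.nx R) < G.ρ y := fun c => farR h w e o y1 c ty
  by_cases k : G.ρ a = G.ρ L
  · obtain rfl := h.rows.inj a1 h.L1 k
    obtain rfl := h.rows.inj y1 n1 (by omega)
    exact Or.inl ⟨va, ta, ty⟩
  · obtain rfl := h.rows.inj a1 m1 (by omega)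
    obtain rfl := h.rows.inj y1 h.R1 (by omega)
    exact Or.inr ⟨va, ta, ty⟩

theorem notp (a : NP G v L (G.nx L)) (b : NP G v (G.nx R) R) : NoTP G v := fun t e o f k =>
  (tp_side h w e o k).elim (fun c => a.resolve_left c.1 t e f c.2.1 c.2.2)
    fun c => b.resolve_left c.1 t e f c.2.1 c.2.2

theorem tpL (n : ¬ G.Γ.Adj v L) (a : G.Γ.Adj t L) (b : G.Γ.Adj t (G.nx L)) : TPx G v t :=
  ⟨L, h.L1, _, (h.rows.nx_mem h.L1).1, (h.rows.nx_mem h.L1).2.2, vL h w, n, a, b⟩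

theorem tpR (n : ¬ G.Γ.Adj v (G.nx R)) (a : G.Γ.Adj t (G.nx R)) (b : G.Γ.Adj t R) : TPx G v t :=
  ⟨_, (h.rows.nx_mem h.R1).1, R, h.R1, (h.rows.nx_mem h.R1).2.2.symm, vR h w, n, a, b⟩

end

/-- the last anchored neighbour -/
theorem last [Fintype J] (h : PF G v z g L R) (w : PW G v) : ∃ G' u g', PF G' v u g' L R ∧
    Sm G G' ∧ ∀ t ∈ G'.Im R (G'.nx R), G'.Γ.Adj v t → ¬ Ft G' t := by
  generalize hn : (G.Im R (G.nx R)).ncard = n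
  induction n using Nat.strong_induction_on generalizing G z g with
  | _ n ih =>
    by_cases c : ∃ t ∈ G.Im R (G.nx R), G.Γ.Adj v t ∧ Ft G t
    · obtain ⟨t, m, e, f⟩ := c
      obtain ⟨n1, n2, -⟩ := h.rows.nx_mem h.R1
      obtain ⟨G', g', h', s⟩ := oth h w e (fun k => (h.im_s h.R1 m).1.2 (Or.inl k)) f
      have sub := Sm.inner h h' s rfl (rungR h w) m
      have fin := h.tf.in_fin h.R1 (h.pr _) n1 (h.pr _) (by omega) (h.nov h.R1)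
      obtain ⟨G'', u, g'', h'', s', k⟩ := ih _ (by
        rw [Sm.nx h h' s h.R1, ← hn]
        exact (Set.ncard_le_ncard sub fin.sdiff).trans_lt (Set.ncard_sdiff_singleton_lt_of_mem m fin))
        h' (pw_sm w s) rfl
      exact ⟨G'', u, g'', h'', sm_trans h h' s s', k⟩
    · exact ⟨G, z, g, h, sm_refl G, fun t m e f => c ⟨t, m, e, f⟩⟩

end Pool.Agent.P.MP_08fd93_co.FY
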