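import Pool.Agent.P.MP_08fd93_co.FY.P0
import Pool.Agent.P.MP_08fd93_co.FE.LZS
import Pool.Agent.P.MP_08fd93_co.FN.D1
import Pool.Agent.P.MP_08fd93_co.FZ.Asm

/-! Depth two: the split by the types of the two sides. -/

set_option autoImplicit false

namespace Pool.Agent.P.MP_08fd93_co.FY

open OV FZ FP2 FW

variable {J : Type} {G : TD J} {v z u p q t x L R : Vx J} {g : Vx J → ℤ}

theorem rp_of (h : PF G v z g L R) (f : G.f x = 1) (n : x ∉ G.V) (hq : q ∈ G.L 0)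
    (e : G.Γ.Adj x q) : Rp G.Γ v z g x := by
  have k : q ∉ Kt v z := fun k => h.tf.l_nv hq ((h.eV q).2 k)
  have a := h.rows.uw.lf _ _ hq
  rw [h.fr.ef] at a f
  rw [rz_n k] at a
  rw [rz_n (mt (h.eV x).2 n)] at f
  exact ⟨q, e, by omega, k⟩

theorem lz_of (lz : FE.S_LongZ) : S_LZ := by
  rintro J _ G v z g L R h w ⟨l, k⟩
  obtain ⟨⟨a1, a2⟩, ⟨b1, b2⟩, -⟩ := h.feet
  obtain ⟨_, T⟩ := h.rt
  obtain ⟨u, p, hp, e, up, zp⟩ := w.sep z h.vz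
  have key : ∀ x ∈ G.L 1, ∀ y, G.Γ.Adj y x → G.Γ.Adj v y → G.Γ.Adj v x ∨ Rp G.Γ v z g x :=
    fun x hx y a b => or_iff_not_imp_right.2 fun n => by
      obtain ⟨c, k⟩ := w.pl x hx fun q hq m =>
        n (rp_of h (h.rows.uw.lf _ _ hx) (h.tf.l_nv hx) hq m)
      exact h.sl.near3 (x := tr c v) (y := v) rfl k.symm a.symm b.symm ▸ k.symm
  have ft : ∀ q ∈ G.L 0, G.Γ.Adj z q → TR G.Γ G.η v z q g := fun q hq e =>
    TR.re T e (h.foot hq e).pv (TR.anc_g T (h.foot hq e))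
  refine lz J G.Γ G.η v z _ _ u g h.rows.nj ⟨ft _ a1 a2, ft _ b1 b2, fun c => ?_, fun c => ?_⟩ e
    (rp_of h (h.fnb e) (fun c => zp (h.kv e c ▸ up)) hp up) (Or.inr ?_)
  · rw [c] at l
    omega
  · have := (h.rows.adj_iff a1 b1).1 c
    omega
  rcases k with ⟨a, a1, y, y1, ay, vy, va, ta, ty⟩ | k
  · exact Or.inr ⟨a, y, ⟨h.eL 1 ▸ a1, h.eL 1 ▸ y1, ay, vy, va, ta, ty⟩,
      (key a a1 y ay.symm vy).resolve_left va⟩
  · refine Or.inl ⟨?_, fun x hx a => key x (h.eL 1 ▸ hx) z a h.vz⟩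
    rintro t ⟨e, o, r, a, y, a1, y1, k'⟩
    have n := T.rp_nk r
    have f := T.fnb e
    obtain ⟨q, m1, m2, m3⟩ := r
    rw [rz_n n] at f
    exact k t e (h.eL 1 ▸ o) ⟨q, h.eL 0 ▸ TR.low_row T h.uw e m1 (by omega) m3, m1⟩
      ⟨a, h.eL 1 ▸ a1, y, h.eL 1 ▸ y1, k'⟩

theorem md_app [Fintype J]
    {P : ∀ {J : Type}, TD J → (Vx J → Vx J) → Vx J → Vx J → Vx J → Vx J → Vx J → Vx J → Prop}
    (m : FP.Md P) (h : PF G v z g L R) (l : ¬ G.ρ (G.xl z) + 1 < G.ρ (G.xr z))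
    (k : ∀ φ lb lc, TQ G v z L lb lc R → P G φ v z L lb lc R) : ∃ c, Col1 G.Γ ∅ c := by
  obtain ⟨lb, lc, q⟩ := pf_tq h (not_lt.1 l)
  obtain ⟨φ, hφ⟩ := FK.ph_ex q.st.lay h.tf.pne
  exact m J G φ v z L lb lc R q h.sl hφ (k φ lb lc q)

/-- some anchor lies outside the feet -/
theorem side (h : PF G v z g L R) (w : PW G v) :
    (∃ p ∈ G.L 0, G.ρ p < G.ρ (G.xl z) ∧ ∃ u, G.Γ.Adj v u ∧ G.Γ.Adj u p ∧
      (u = L ∨ u ∈ G.Im L (G.nx L))) ∨ ∃ p ∈ G.L 0, G.ρ (G.xr z) < G.ρ p ∧ ∃ u, G.Γ.Adj v u ∧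
        G.Γ.Adj u p ∧ (u = G.nx R ∨ u ∈ G.Im R (G.nx R)) := by
  obtain ⟨⟨a1, a2⟩, ⟨b1, b2⟩, -⟩ := h.feet
  obtain ⟨u, p, hp, e, up, zp⟩ := w.sep z h.vz
  have a : G.ρ p ≠ G.ρ (G.xl z) := fun c => zp (h.rows.inj hp a1 c ▸ a2)
  have b : G.ρ (G.xr z) ≠ G.ρ p := fun c => zp (h.rows.inj b1 hp c ▸ b2)
  rcases pa h e hp up with k | k | k | k | k
  · exact absurd (k ▸ up) zp
  · exact Or.inl ⟨p, hp, (h.ftL hp (k ▸ up)).lt_of_ne a, u, e, up, Or.inl k⟩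
  · exact Or.inr ⟨p, hp, (h.ftR hp (k ▸ up)).lt_of_ne b, u, e, up, Or.inl k⟩
  · exact Or.inl ⟨p, hp, (inL h w k up hp).2.lt_of_ne a, u, e, up, Or.inr k⟩
  · exact Or.inr ⟨p, hp, (inR h w k up hp).1.lt_of_ne b, u, e, up, Or.inr k⟩

theorem vv1 [Fintype J] (hV : FP.S_VV) (h : PF G v z g L R) (w : PW G v)
    (l : ¬ G.ρ (G.xl z) + 1 < G.ρ (G.xr z)) (a : G.Γ.Adj v L) (b : G.Γ.Adj v (G.nx R))
    (hp : p ∈ G.L 0) (e : G.Γ.Adj L p) (lt : G.ρ p < G.ρ (G.xl z)) : ∃ c, Col1 G.Γ ∅ c :=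
  have h' := pf_chg h h.L1 hp e
  have w' := pw_chg w (FR.upa G.an L p)
  md_app (G := chgT G (FR.upa G.an L p)) hV h' l fun _ _ _ _ => ⟨⟨h'.anLV a, rungL h' w', by
    show G.ρ (FR.upa G.an L p L) < _
    rwa [FR.upa_self]⟩, a.symm, h'.anRV b, rungR h' w', b.symm⟩

/-- the root sees both ends -/
theorem vv (hV : FP.S_VV) (lz : S_LZ) :
    Pd fun G v _ L R => G.Γ.Adj v L ∧ G.Γ.Adj v (G.nx R) := by
  rintro J _ G v z g L R h w ⟨a, b⟩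
  by_cases l : G.ρ (G.xl z) + 1 < G.ρ (G.xr z)
  · exact lz J G v z g L R h w ⟨l, Or.inr (notp h w (Or.inl a) (Or.inl b))⟩
  have b' : G.Γ.Adj v ((mirT G).nx (G.nx L)) := (mir_nx_nx h.rows h.iA.1).symm ▸ a
  have l' : ¬ -G.ρ (G.xr z) + 1 < -G.ρ (G.xl z) := by omega
  rcases side h w with ⟨p, hp, lt, u, -, up, k | k⟩ | ⟨p, hp, lt, u, -, up, k | k⟩
  · exact vv1 hV h w l a b hp (k ▸ up) lt
  · exact vv1 hV h w l a b (anL0 h w) (h.aa h.L1) ((inL h w k up hp).1.trans_lt lt)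
  · exact vv1 (G := mirT G) hV (pf_mir h) (pw_mir w) l' b b' hp (k ▸ up) (neg_lt_neg lt)
  · exact vv1 (G := mirT G) hV (pf_mir h) (pw_mir w) l' b b' (anR0 (G := G) h w)
      (h.aa (h.rows.nx_mem h.R1).1) (neg_lt_neg (lt.trans_le (inR (G := G) h w k up hp).2))

/-- a vertex over the neck that sees the neck is its child -/
theorem an_z (h : PF G v z g L R) (hx : x ∈ G.L 1) (e : G.nk x = z) (a : G.Γ.Adj z x) :
    G.an x = z := (h.an_of e).resolve_left fun c => h.hv (by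
  have := (h.tf.pure 1 x hx (h.pr x) (c ▸ h.vV)).2
  rw [c, h.fr.mv] at this
  rw [h.fr.mv, this a.symm])

theorem tpl (h : PF G v z g L R) (w : PW G v) (a : G.Γ.Adj z L) (b : G.Γ.Adj z (G.nx L)) :
    FP.TPL G v z L := by
  obtain ⟨n1, n2, -⟩ := h.rows.nx_mem h.L1
  obtain ⟨m1, m2, -⟩ := h.rows.nx_mem n1
  have e := an_z h n1 h.nL b
  refine ⟨e, a.symm, (vL h w).symm, ?_⟩
  obtain ⟨y, y1, y2⟩ := h.child
  obtain ⟨-, l, -⟩ := h.rng (h.rows.la y1) (h.nk_v y2)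
  have n : G.ρ y ≠ G.ρ (G.nx L) := fun c =>
    h.vz.ne (y2.symm.trans (h.rows.inj y1 n1 c ▸ e))
  rcases eq_or_lt_of_le (show G.ρ (G.nx (G.nx L)) ≤ G.ρ y by omega) with c | c
  · rwa [h.rows.inj m1 y1 c]
  · exact h.link n1 y1 (vL h w) (y2 ▸ (h.aa y1).symm) m1 (by omega) c

theorem tp1 [Fintype J] (hT : FN.S_TP) (lz : S_LZ) (h : PF G v z g L R) (w : PW G v)
    (n : ¬ G.Γ.Adj v L) (n' : ¬ G.Γ.Adj v (G.nx R)) (a : G.Γ.Adj z L) (b : G.Γ.Adj z (G.nx L))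
    (k : G.an R = v → G.ρ (G.an L) < G.ρ (G.xl z) ∨
      ∃ t ∈ G.Im R (G.nx R), G.Γ.Adj t v ∧ G.Γ.Adj t (G.an (G.nx R))) : ∃ c, Col1 G.Γ ∅ c := by
  by_cases l : G.ρ (G.xl z) + 1 < G.ρ (G.xr z)
  · exact lz J G v z g L R h w ⟨l, Or.inl (tpL h w n a b)⟩
  have T := tpl h w a b
  rcases side h w with ⟨p, hp, lt, u, e, up, c | c⟩ | ⟨p, hp, lt, u, e, up, c | c⟩
  · exact absurd (c ▸ e) n
  · exact absurd ((h.anL c e).symm.trans T.1) h.vz.ne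
  · exact absurd (c ▸ e) n'
  · exact md_app hT h l fun _ _ _ _ => ⟨T, h.anR c e, (k (h.anR c e)).imp_right fun m =>
      ⟨lt.trans_le (inR h w c up hp).2, by rwa [h.bI h.R1]⟩⟩

/-- a top triangle on both sides -/
theorem tp (hT : FN.S_TP) (lz : S_LZ) :
    Pd fun G v _ L R => ¬ NP G v L (G.nx L) ∧ ¬ NP G v (G.nx R) R := by
  rintro J _ G v z g L R h w ⟨a, b⟩
  unfold NP at a b
  push Not at a b
  obtain ⟨n, t, e, f, a1, a2⟩ := a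
  obtain ⟨n', t', e', f', b1, b2⟩ := b
  obtain ⟨G1, g1, h1, s1⟩ := oth h w e (h.apex h.L1 e a1 a2).1 f
  have w1 := pw_sm w s1
  have eL := Sm.nx h h1 s1 h.L1
  have eR := Sm.nx h h1 s1 h.R1
  rw [← s1.eΓ, ← eL] at a2
  rw [← s1.eΓ, ← eR] at n' b1
  rw [← s1.eΓ] at n a1 b2 e' ⊢
  have ap := h1.apex h1.R1 e' b2 b1
  by_cases c : G1.Γ.Adj t' (G1.an (G1.nx R))
  · refine tp1 hT lz h1 w1 n n' a1 a2 fun k => Or.inr ⟨t', ap.2.resolve_left fun m => ?_, e'.symm, c⟩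
    exact h1.vz.ne (k.symm.trans (an_z h1 h1.R1 h1.nR (m ▸ b2)))
  obtain ⟨G2, g2, h2, s2⟩ := oth h1 w1 e' ap.1 ((ft_sm s1).2 f')
  have w2 := pw_sm w1 s2
  obtain ⟨m1, -⟩ := h1.rows.nx_mem h1.R1
  rw [← s2.ea _ (h1.rows.la m1) (rungR h1 w1), ← s2.eΓ] at c
  rw [← Sm.nx h1 h2 s2 h1.R1] at n' b1 c
  rw [← s2.eΓ] at n n' b1 b2 ⊢
  refine tp1 (G := mirT G2) hT lz (pf_mir h2) (pw_mir w2) n' ?_ b1 ?_ fun _ => Or.inl ?_
  · rwa [mir_nx_nx h2.rows h2.iA.1]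
  · rwa [mir_nx_nx h2.rows h2.iD.1]
  · obtain ⟨-, ⟨k1, k2⟩, -⟩ := h2.feet
    exact neg_lt_neg ((h2.ftR (anR0 h2 w2) (h2.aa (h2.rows.nx_mem h2.R1).1)).lt_of_ne fun m =>
      c (h2.rows.inj k1 (anR0 h2 w2) m ▸ k2))

theorem plain (A : S_A) (hV : FP.S_VV) (hT : FN.S_TP) (lz : S_LZ) : Pd fun _ _ _ _ _ => True := by
  rintro J _ G v z g L R h w -
  have B : ¬ G.Γ.Adj v L → NP G v (G.nx R) R → ∃ c, Col1 G.Γ ∅ c := fun a b =>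
    A J (mirT G) v z g _ _ (pf_mir h) (pw_mir w) (by
      beta_reduce
      rw [mir_nx_nx h.rows h.iA.1, mir_nx_nx h.rows h.iD.1]
      exact ⟨a, b⟩)
  by_cases a : G.Γ.Adj v L <;> by_cases b : G.Γ.Adj v (G.nx R)
  · exact vv hV lz J G v z g L R h w ⟨a, b⟩
  · exact A J G v z g L R h w ⟨b, Or.inl a⟩
  · exact B a (Or.inl b)
  by_cases c : NP G v L (G.nx L)
  · exact A J G v z g L R h w ⟨b, c⟩
  by_cases d : NP G v (G.nx R) R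
  exacts [B a d, tp hT lz J G v z g L R h w ⟨c, d⟩]

/-- All anchored neighbours of the root lie on the line one of the height with one root. -/
def S_C2 : Prop :=
  ∀ (J : Type) [Fintype J] (Γ : SimpleGraph (Vx J)) (η : ℤ × ℤ →+ ℤ) (c1 c2 : ℤ × ℤ)
    (l1 l2 : ℤ → Vx J) (h : Vx J → ℤ), NJ Γ Set.univ → Rt Γ η c1 c2 l1 l2 → H1 Γ η (l1 0) h →
    (∀ u ∈ Pa Γ η (l1 0), u ∈ LL Γ (rais h (l1 0)) 1) → ∃ c, Col1 Γ ∅ c

theorem pit_of (A : S_A) (hV : FP.S_VV) (hT : FN.S_TP) (lz : FE.S_LongZ) (C : S_C2) : S_Pit := by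
  intro J _ Γ η c1 c2 l1 l2 hJ _ hN r
  obtain ⟨f, H⟩ := Sl.h1 r.sl (l1 0)
  by_cases c : ∀ u ∈ Pa Γ η (l1 0), u ∈ LL Γ (rais f (l1 0)) 1
  · exact C J Γ η c1 c2 l1 l2 f hN r H c
  push Not at c
  obtain ⟨z, ⟨p, a⟩, o⟩ := c
  obtain ⟨_, _, _, -, -, T0⟩ := r.sink ⟨p, a⟩
  obtain ⟨w, hw⟩ := T0.wp
  have hU := (H.wp a hw).uw hJ
  have vu := TR.uu_le T0 H T0.vu
  obtain ⟨g, T, eU, -⟩ := H.tr_off hU vu a o
  obtain ⟨a0, e0, h0⟩ := T.an_ex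
  obtain ⟨an, A2, -⟩ := T.an2 e0 h0
  obtain ⟨G, F⟩ := exists_fr2 hN T A2
  obtain rfl := F.eΓ
  obtain rfl := F.eη
  obtain rfl := F.ea
  obtain ⟨L, R, h⟩ := pf_ex T A2 F
  have eL : ∀ j, G.L j = LL G.Γ (rais f (l1 0)) j := fun j => by rw [h.eL, ll_congr eU]
  refine plain A hV hT (lz_of lz) J G _ z g L R h ⟨fun x hx n => ?_, fun t e => ?_,
    fun u q e o' hq a' => ?_⟩ trivial
  · have k : x.1 ≠ (l1 0).1 := fun k => h.tf.l_nv hx ((h.eV x).2 (Or.inl k))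
    rw [eL] at hx n
    have fx := hU.lf _ _ hx
    rw [rais_n k] at fx
    obtain ⟨y, e, fy⟩ := (H.ht.par H.fine x).resolve_right (by
      rintro ⟨_, rfl, b, rfl, -⟩
      exact k rfl)
    by_cases m : y.1 = (l1 0).1
    · exact ⟨_, orb_eq m ▸ e⟩
    · exact absurd e (n y (hU.lan 1 x (hU.lu _ hx) y e (by rw [rais_n m]; omega)))
  · by_cases m : G.Γ.Adj t (l1 (-2))
    · have b := r.e ▸ r.symm.anc
      exact ⟨_, _, h.anc_row b, b.vu, b.up, r.sep t e.symm m⟩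
    · exact ⟨_, _, h.anc_row r.anc, r.anc.vu, r.anc.up, m⟩
  · have k : q ≠ l1 0 := fun k => h.tf.l_nv hq (k ▸ h.vV)
    rw [eL] at hq o'
    obtain ⟨g', T', e', -⟩ := H.tr_off hU vu
      ⟨e, a', k, H.low.2 ((rais_ge q).trans (hU.lf _ _ hq).le)⟩ o'
    exact ⟨g', T', by rw [e', F.ef, eU]⟩

end Pool.Agent.P.MP_08fd93_co.FY
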