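import Pool.Agent.P.MP_08fd93_co.FW.T2
import Pool.Agent.P.MP_08fd93_co.FR.Ear0

/-! Depth two: the mirror image of a frame with tails, the change of the parent map and of the
second root. -/

set_option autoImplicit false

namespace Pool.Agent.P.MP_08fd93_co.FY

open OV FZ FP2 FW

variable {J : Type} {Γ : SimpleGraph (Vx J)} {η : ℤ × ℤ →+ ℤ} {v z p x y r : Vx J}
  {g : Vx J → ℤ} {an an' : Vx J → Vx J} {G : TD J}

/-- The frame read from right to left. -/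
def mirT (G : TD J) : TD J :=
  ⟨⟨G.Γ, G.η, G.f, G.an, -G.w, fun j i => G.l j (-i), fun x => -G.ρ x, G.nn⟩, G.Pr, G.V, G.md,
    G.xr, G.xl, G.ch⟩

theorem tfrm_mir (h : TFrm G) : TFrm (mirT G) :=
  ⟨rows_mir (an := G.an) h.toRows, h.atr, h.ptr, h.vtr,
    fun a x => ⟨(h.xtr a x).2.1, (h.xtr a x).1, (h.xtr a x).2.2⟩, h.vst, h.mv, h.vn, h.one,
    fun p c => ⟨(h.xo p c).2.1, (h.xo p c).1, (h.xo p c).2.2⟩, fun u hu => (h.xm u hu).symm,
    h.vr, h.vl, fun u hu z hz e =>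
      let ⟨a, b, c⟩ := h.vx u hu z hz e
      ⟨a, neg_le_neg c, neg_le_neg b⟩, h.vc, h.aa, h.pure, h.pne⟩

theorem fr2_mir (H : Fr2 Γ η v z g an G) : Fr2 Γ η v z g an (mirT G) :=
  ⟨tfrm_mir H.tf, H.eΓ, H.eη, H.ef, H.ea, H.eP, H.eV, H.mv, H.mz⟩

theorem mirT_nx (x : Vx J) : (mirT G).nx x = G.l (G.f x) (G.ρ x - 1) := by
  show G.l (G.f x) (-(-G.ρ x + 1)) = _
  congr 1
  ring

/-- The frame with another parent map. -/
def chgT (G : TD J) (an : Vx J → Vx J) : TD J :=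
  ⟨⟨G.Γ, G.η, G.f, an, G.w, G.l, G.ρ, G.nn⟩, G.Pr, G.V, G.md, G.xl, G.xr, G.ch⟩

/-- all parent maps agree on the vertices without a parent off the roots -/
theorem an2_pure (t : TR Γ η v z p g) (A : An2 Γ v z g an) (A' : An2 Γ v z g an')
    (hx : x ∉ Kt v z) (k : an x ∈ Kt v z) : an' x = an x := by
  have n : ¬ Rp Γ v z g x := fun c => A.row x c k
  obtain ⟨a1, a2⟩ := A.adj x hx
  obtain ⟨b1, b2⟩ := A'.adj x hx
  have k' : an' x ∈ Kt v z := by_contra fun c => n ⟨_, b1, b2, c⟩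
  obtain ⟨a, e | e⟩ := kt_ex k
  · obtain ⟨b, e' | e'⟩ := kt_ex k'
    · exact t.toSl.near2 (by rw [e, e']; rfl) b1.symm a1
    · exact e'.trans (A.nz x hx k b (e' ▸ b1) (e' ▸ b2)).symm
  · exact (A'.nz x hx k' a (e ▸ a1) (e ▸ a2)).trans e.symm

theorem fr2_chg (H : Fr2 Γ η v z g an G) (t : TR Γ η v z p g) (A : An2 Γ v z g an)
    (A' : An2 Γ v z g an') : Fr2 Γ η v z g an' (chgT G an') := by
  have h := H.tf
  have r := h.toRows
  have U : UW Γ η (rz v z g) G.w := H.eΓ ▸ H.eη ▸ H.ef ▸ h.uw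
  have eL : ∀ j, G.L j = LL Γ (rz v z g) j := fun j => by rw [← H.eΓ, ← H.ef]
  have nk : ∀ j, ∀ x ∈ G.L j, x ∉ Kt v z := fun j x hx => H.eV ▸ h.l_nv hx
  have key : ∀ j, ∀ x ∈ G.L j, G.an x ∈ G.V → an' x = G.an x := fun j x hx c => by
    rw [H.ea, H.eV] at c
    rw [H.ea]
    exact an2_pure t A A' (nk j x hx) c
  have back : ∀ j, ∀ x ∈ G.L j, an' x ∈ G.V → an' x = G.an x := fun j x hx c => by
    rw [H.eV] at c
    rw [H.ea]
    exact (an2_pure t A' A (nk j x hx) c).symm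
  refine ⟨⟨⟨r.wp, r.uw, r.nj, r.mem, r.rho, r.adj, r.lw, r.n2, r.ltr, r.blc, r.tch⟩, A'.atr, h.ptr,
    h.vtr, h.xtr, h.vst, h.mv, h.vn, h.one, h.xo, h.xm, h.vl, h.vr, h.vx,
    fun u hu => ⟨(h.vc u hu).1, (h.vc u hu).2.1, ?_⟩,
    fun j x hx px => ⟨H.eΓ ▸ (A'.adj x (nk j x hx)).1, ?_⟩, fun j x hx px c => ?_, h.pne⟩, H.eΓ,
    H.eη, H.ef, rfl, H.eP, H.eV, H.mv, H.mz⟩
  · obtain ⟨c1, -, c3⟩ := h.vc u hu
    show u ∈ ({an' (G.ch u), G.md (an' (G.ch u))} ∩ G.V : Set (Vx J))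
    rw [key _ _ c1 (h.ct_v c3)]
    exact c3
  · by_cases c : an' x ∈ G.V
    · have e := back j x hx c
      exact Or.inr ⟨c, by
        show G.f (an' x) = j
        rw [e]
        exact h.an_f hx px (e ▸ c)⟩
    · obtain ⟨a1, a2⟩ := A'.adj x (nk j x hx)
      refine Or.inl ?_
      show an' x ∈ G.L (j - 1)
      rw [eL]
      exact t.par_l U (eL j ▸ hx) a1 a2 (H.eV ▸ c)
  · have e := back j x hx c
    have := h.pure j x hx px (e ▸ c)
    rw [← e] at this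
    exact this

/-- the parent of one orbit is changed to another parent off the roots -/
theorem an2_upa (t : TR Γ η v z p g) (A : An2 Γ v z g an) (e : Γ.Adj x r) (hg : g r = g x - 1)
    (n : r ∉ Kt v z) : An2 Γ v z g (FR.upa an x r) := by
  refine ⟨fun a y => ?_, fun y hy => ?_, fun y hy => ?_, fun y hy k => ?_⟩
  all_goals by_cases c : y.1 = x.1
  · rw [FR.upa_orb c, FR.upa_orb (y := tr a y) c, tr_sub]
  · rw [FR.upa_ne c, FR.upa_ne (y := tr a y) c, A.atr]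
  · have a := t.fine.inv (y.2 - x.2) _ _ e
    have b := t.per (y.2 - x.2) x
    rw [← orb_eq c] at a b
    rw [FR.upa_orb c, t.per]
    exact ⟨a, by omega⟩
  · rw [FR.upa_ne c]
    exact A.adj y hy
  · rw [FR.upa_orb c]
    exact n
  · rw [FR.upa_ne c]
    exact A.row y hy
  · rw [FR.upa_orb c] at k
    exact absurd k n
  · rw [FR.upa_ne c] at k ⊢
    exact A.nz y hy k

/-- the frame over given lines -/
theorem fr2_of [Fintype J] (h : TR Γ η v z p g) (A : An2 Γ v z g an) {w : ℤ × ℤ}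
    {l : ℤ → ℤ → Vx J} {ρ : Vx J → ℤ} {nn : ℤ → ℤ}
    (hR : Rows ⟨Γ, η, rz v z g, an, w, l, ρ, nn⟩) :
    ∃ G, Fr2 Γ η v z g an G ∧ G.w = w ∧ G.l = l ∧ G.ρ = ρ ∧ G.nn = nn := by
  have hU : UW Γ η (rz v z g) w := hR.uw
  have n1 := h.ne1
  obtain ⟨n, c, -, -, yL, yv, yz, yp⟩ := h.child hU (A.rp h)
  set y := tr c (an^[n] p)
  have yK : y ∉ Kt v z := fun k => h.k_nl hU k yL
  have ay : an y = v := by
    obtain ⟨k1, k2⟩ := A.adj y yK
    have k3 : an y ∈ Kt v z := by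
      by_contra k
      refine yp ⟨tr (-c) (an y), ?_, ?_, k⟩
      · simpa only [y, tr_neg] using h.fine.inv (-c) _ _ k1
      · rw [h.per, k2, h.per, map_neg]
        ring
    obtain ⟨a, e | e⟩ := kt_ex k3
    · exact h.toSl.near2 (by rw [e]; rfl) k1.symm yv
    · have : an y = z := h.toSl.near3 (by rw [e]; rfl) k1.symm yv h.vz
      exact absurd (this ▸ k1) yz
  have fin : {q | q ∈ LL Γ (rz v z g) 0 ∧ Γ.Adj z q}.Finite :=
    (h.fine.lf z).subset fun q hq => hq.2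
  obtain ⟨q1, hq1, m1⟩ := Set.exists_min_image _ ρ fin ⟨p, h.p_l hU, h.zp⟩
  obtain ⟨q2, hq2, m2⟩ := Set.exists_max_image _ ρ fin ⟨p, h.p_l hU, h.zp⟩
  have rep : ∀ u ∈ Kt v z, ∃ a, (u = tr a v ∨ u = tr a z) ∧ rz v z g u = 1 + η a ∧
      ∀ r, ex2 v z r u = tr a r := by
    intro u hu
    obtain ⟨a, rfl | rfl⟩ := kt_ex hu
    exacts [⟨a, Or.inl rfl, by rw [h.fper, h.fv], fun _ => ex2_v a⟩,
      ⟨a, Or.inr rfl, by rw [h.fper, h.fz], fun _ => ex2_z n1 a⟩]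
  have ft : ∀ u ∈ Kt v z, ∀ r, r ∈ LL Γ (rz v z g) 0 ∧ Γ.Adj z r →
      ex2 v z r u ∈ LL Γ (rz v z g) (rz v z g u - 1) ∧ Γ.Adj (ex2 v z z u) (ex2 v z r u) := by
    intro u hu r hr
    obtain ⟨a, -, e, k⟩ := rep u hu
    rw [k, k, e, show 1 + η a - 1 = 0 + η a by ring]
    exact ⟨(hU.ltr a 0 r).2 hr.1, h.fine.inv a _ _ hr.2⟩
  refine ⟨⟨⟨Γ, η, rz v z g, an, w, l, ρ, nn⟩, Set.univ, Kt v z, ex2 v z z, ex2 v z q1, ex2 v z q2,
    ex2 v z y⟩, ⟨⟨hR, A.atr, fun _ _ _ => trivial, fun a u hu => hu,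
    fun a x => ⟨ex2_tr n1 a x, ex2_tr n1 a x, ex2_tr n1 a x, ex2_tr n1 a x⟩,
    fun u hu => h.k_st hU hu, fun u hu => ?_, fun u hu u' hu' e => ?_, fun u hu u' hu' e => ?_,
    fun u hu => ⟨ex2_n hu, ex2_n hu, ex2_n hu⟩, fun u hu => ?_, fun u hu => ft u hu q1 hq1,
    fun u hu => ft u hu q2 hq2, fun u hu q hq e => ?_, fun u hu => ?_, fun j x hx _ => ?_,
    fun j x hx _ hK => ⟨fun q hq e => ?_, fun e => ?_⟩, fun j => ⟨_, hR.l_mem j 0, trivial⟩⟩,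
    rfl, rfl, rfl, rfl, rfl, rfl, by simpa only [tr_zero] using ex2_v (v := v) (z := z) (r := z) 0,
    by simpa only [tr_zero] using ex2_z (r := z) n1 0⟩, rfl, rfl, rfl, rfl⟩
  · obtain ⟨a, e, fu, k⟩ := rep u hu
    show ex2 v z z u ∈ Kt v z ∧ rz v z g (ex2 v z z u) = rz v z g u ∧
      ex2 v z z (ex2 v z z u) = ex2 v z z u ∧ (ex2 v z z u = u ∨ Γ.Adj u (ex2 v z z u))
    rw [k, ex2_z n1, h.fper, h.fz, fu]
    refine ⟨kt_z a, rfl, rfl, ?_⟩
    rcases e with rfl | rfl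
    exacts [Or.inr (h.fine.inv a _ _ h.vz), Or.inl rfl]
  · obtain ⟨a, e1, -, k⟩ := rep u hu
    show ex2 v z z u = ex2 v z z u'
    have e : Γ.Adj u u' := e
    have e2 := h.fine.inv (-a) _ _ e
    rw [k, ← tr_neg' a u', ex2_tr n1]
    rcases e1 with rfl | rfl
    · rw [tr_neg] at e2
      rw [h.kv e2 hu']
      simpa only [tr_zero] using congrArg (tr a) (ex2_z (r := z) n1 0).symm
    · rw [tr_neg] at e2
      rw [h.kz e2 hu']
      simpa only [tr_zero] using congrArg (tr a) (ex2_v (v := v) (z := z) (r := z) 0).symm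
  · obtain ⟨a, e1, -, k⟩ := rep u hu
    obtain ⟨b, e2, -, k'⟩ := rep u' hu'
    have e : ex2 v z z u = ex2 v z z u' := e
    show u = u' ∨ ex2 v z z u = u ∨ ex2 v z z u' = u'
    rw [k, k'] at e ⊢
    obtain rfl := tr_eq_tr e
    rcases e1 with e1 | e1
    · exact e2.elim (fun e2 => Or.inl (e1.trans e2.symm)) fun e2 => Or.inr (Or.inr e2.symm)
    · exact Or.inr (Or.inl e1.symm)
  · obtain ⟨a, -, -, k⟩ := rep u hu
    show ex2 v z q1 (ex2 v z z u) = ex2 v z q1 u ∧ ex2 v z q2 (ex2 v z z u) = ex2 v z q2 u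
    rw [k, k, k, ex2_z n1, ex2_z n1]
    exact ⟨rfl, rfl⟩
  · obtain ⟨a, e1, fu, k⟩ := rep u hu
    show ex2 v z z u = u ∧ ρ (ex2 v z q1 u) ≤ ρ q ∧ ρ q ≤ ρ (ex2 v z q2 u)
    replace hq : q ∈ LL Γ (rz v z g) (rz v z g u - 1) := hq
    rw [fu, show 1 + η a - 1 = 0 + η a by ring, ← tr_neg' a q, hU.ltr] at hq
    have e2 : Γ.Adj (tr (-a) u) (tr (-a) q) := h.fine.inv (-a) _ _ e
    rcases e1 with rfl | rfl
    · rw [tr_neg] at e2
      have := h.fnb e2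
      have := hU.lf _ _ hq
      omega
    rw [tr_neg] at e2
    obtain ⟨κ, hκ⟩ := hR.rho_tr a 0
    have a1 := m1 _ ⟨hq, e2⟩
    have a2 := m2 _ ⟨hq, e2⟩
    have a3 : ρ _ = ρ _ + κ := (hκ _ hq).2
    have a4 : ρ _ = ρ _ + κ := (hκ _ hq1.1).2
    have a5 : ρ _ = ρ _ + κ := (hκ _ hq2.1).2
    rw [tr_neg'] at a3
    rw [k, k, k]
    exact ⟨rfl, by omega, by omega⟩
  · obtain ⟨a, e1, fu, k⟩ := rep u hu
    refine ⟨?_, trivial, ?_, hu⟩
    · show ex2 v z y u ∈ LL Γ (rz v z g) (rz v z g u)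
      rw [k, fu]
      exact (hU.ltr a 1 y).2 yL
    · show u = an (ex2 v z y u) ∨ u = ex2 v z z (an (ex2 v z y u))
      rw [k, A.atr, ay, ex2_v]
      exact e1
  · have xK : x ∉ Kt v z := fun k => h.k_nl hU k hx
    obtain ⟨k1, k2⟩ := A.adj x xK
    refine ⟨k1, ?_⟩
    by_cases c : an x ∈ Kt v z
    · refine Or.inr ⟨c, ?_⟩
      have := hU.lf _ _ hx
      show rz v z g (an x) = j
      rw [rz_n xK] at this
      rw [rz_k c]
      omega
    · exact Or.inl (h.par_l hU hx k1 k2 c)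
  · obtain ⟨k1, k2⟩ := h.l_par hU hx hq
    exact A.row x ⟨q, e, k1, k2⟩ hK
  · have xK : x ∉ Kt v z := fun k => h.k_nl hU k hx
    obtain ⟨a, e1, -, k⟩ := rep (an x) hK
    have e : Γ.Adj x (ex2 v z z (an x)) := e
    show ex2 v z z (an x) = an x
    rw [k] at e ⊢
    refine (A.nz x xK hK a e ?_).symm
    rw [← (A.adj x xK).2]
    rcases e1 with e1 | e1
    · rw [e1, h.per, h.per, h.gv, h.gz]
    · rw [e1]

/-- another second root with the same upper parts has a frame over the same lines -/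
theorem retail [Fintype J] (H : Fr2 Γ η v z g an G) {z' p' : Vx J} {g' : Vx J → ℤ}
    (t' : TR Γ η v z' p' g') (e : UU Γ (rz v z' g') = UU Γ (rz v z g)) (A' : An2 Γ v z' g' an') :
    ∃ G', Fr2 Γ η v z' g' an' G' ∧ G'.w = G.w ∧ G'.l = G.l ∧ G'.ρ = G.ρ ∧ G'.nn = G.nn := by
  obtain rfl := H.eΓ
  obtain rfl := H.eη
  have wp := TR.wp' t' H.tf.wp
  exact fr2_of t' A' (rows_congr (an := G.an) H.tf.toRows wp (wp.uw ⟨v.1⟩) (H.ef ▸ e))

end Pool.Agent.P.MP_08fd93_co.FY
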