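import Pool.Agent.P.MP_08fd93_co.FY.P1

/-! Depth two: the root does not see the right end and there is no top triangle on the left. -/

set_option autoImplicit false

namespace Pool.Agent.P.MP_08fd93_co.FY

open OV FZ FP2 FW

variable {J : Type} {G : TD J} {v z u p q t x y L R : Vx J} {g : Vx J → ℤ} {j : ℤ}

theorem orb_gap (h : Rows G.toFD) (hx : x ∈ G.L j) (hy : y ∈ G.L j) (e : y.1 = x.1)
    (l : G.ρ x < G.ρ y) : G.ρ x + G.nn j ≤ G.ρ y := by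
  obtain ⟨a, rfl⟩ : ∃ a, y = tr a x := ⟨_, orb_eq e⟩
  have f := h.uw.lf _ _ hy
  rw [h.wp.per, h.uw.lf _ _ hx] at f
  obtain ⟨k, rfl⟩ := (h.wp.ker a).1 (by omega)
  have := h.n2 j
  rw [(h.rho_lw k hx).2] at l ⊢
  have : 0 < k := by
    by_contra c
    nlinarith
  nlinarith

/-- No anchored neighbour of the root lies in the right cell. -/
def La (G : TD J) (v R : Vx J) : Prop := ∀ t ∈ G.Im R (G.nx R), G.Γ.Adj v t → ¬ Ft G t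

section

variable (h : PF G v z g L R) (w : PW G v) (n : ¬ G.Γ.Adj v (G.nx R)) (la : La G v R)
include h n la

theorem hf : FP.HF G v z := fun _ _ i a k => by
  obtain ⟨u, e, b, c | c⟩ := h.hubR i a h.feet.2.1.1 k
  exacts [n (c ▸ e), la u c e ⟨_, h.feet.2.1.1, b⟩]

include w

theorem sideL : ∃ p ∈ G.L 0, G.ρ p < G.ρ (G.xl z) ∧ ∃ u, G.Γ.Adj v u ∧ G.Γ.Adj u p ∧
    (u = L ∨ u ∈ G.Im L (G.nx L)) := (side h w).resolve_right (by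
  rintro ⟨p, hp, -, u, e, a, c | c⟩
  exacts [n (c ▸ e), la u c e ⟨p, hp, a⟩])

theorem good (n' : ¬ G.Γ.Adj v L) (np : NP G v L (G.nx L)) : FP.GD G v z L := by
  obtain ⟨p, hp, lt, u, e, a, c | c⟩ := sideL h w n la
  · exact absurd (c ▸ e) n'
  have k := (inL h w c a hp).1
  refine ⟨⟨h.anL c e, rungL h w, k.trans_lt lt⟩, Or.inr ⟨⟨u, h.bI h.L1 ▸ c, e.symm, p, hp, k, lt, a⟩,
    fun t _ a1 a2 a3 x hx a4 => np.resolve_left n' t a1.symm ⟨x, hx, a4⟩ a2 a3⟩, hf h n la⟩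

theorem goodV [Fintype J] (g1 : FP.S_G1) (l : ¬ G.ρ (G.xl z) + 1 < G.ρ (G.xr z))
    (a : G.Γ.Adj v L) : ∃ c, Col1 G.Γ ∅ c := by
  obtain ⟨p, hp, lt, e⟩ : ∃ p ∈ G.L 0, G.ρ p < G.ρ (G.xl z) ∧ G.Γ.Adj L p := by
    obtain ⟨p, hp, lt, u, -, b, c | c⟩ := sideL h w n la
    exacts [⟨p, hp, lt, c ▸ b⟩, ⟨_, anL0 h w, (inL h w c b hp).1.trans_lt lt, h.aa h.L1⟩]
  obtain ⟨n1, n2, n3⟩ := h.rows.nx_mem h.R1
  have lt' := h.lt
  have h' := pf_chg h h.L1 hp e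
  have a1 : R.1 ≠ L.1 := fun c => by
    rw [h.sl.near2 c (vR h w).symm a] at lt'
    omega
  have a2 : (G.nx R).1 ≠ L.1 := fun c => by
    rw [h.sl.near3 c n3.symm (vR h w).symm a] at n2
    omega
  refine md_app (G := chgT G (FR.upa G.an L p)) g1 h' l fun _ _ _ _ => ⟨⟨⟨h'.anLV a,
    rungL h' (pw_chg w _), ?_⟩, Or.inl a.symm, hf h' n fun t m => la t ?_⟩, Or.inl a.symm⟩
  · show G.ρ (FR.upa G.an L p L) < _
    rwa [FR.upa_self]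
  · rwa [← im_chg (FR.upa_ne a1) (FR.upa_ne a2)]

end

theorem caseA (g0 : FP.S_G0) (g1 : FP.S_G1) (g2 : FP.S_G2) (lz : S_LZ) : S_A := by
  rintro J _ G0 v z0 f0 L R h0 w0 ⟨n0, np0⟩
  by_cases c : NP G0 v (G0.nx R) R
  swap
  · unfold NP at c
    push Not at c
    obtain ⟨-, t, e, f, b1, b2⟩ := c
    obtain ⟨G, g, h, s⟩ := oth h0 w0 e (h0.apex h0.R1 e b2 b1).1 f
    have w := pw_sm w0 s
    rw [← np_sm s, ← Sm.nx h0 h s h0.L1] at np0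
    rw [← s.eΓ, ← Sm.nx h0 h s h0.R1] at n0 b1
    rw [← s.eΓ] at b2 ⊢
    by_cases l : G.ρ (G.xl t) + 1 < G.ρ (G.xr t)
    · exact lz J G v t g L R h w ⟨l, Or.inl (tpR h w n0 b1 b2)⟩
    have aR := an_z h h.R1 h.nR b2
    have la : La G v R := fun u m a _ => h.vz.ne ((h.anR m a).symm.trans aR)
    by_cases a : G.Γ.Adj v L
    · exact goodV h w n0 la g1 l a
    refine md_app g2 h l fun _ lb lc q => ⟨good h w n0 la a np0, aR, b1.symm, (vR h w).symm, ?_⟩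
    obtain ⟨-, -, c1, -, -, -, c2, -⟩ := q.ord
    obtain ⟨m1, m2, -⟩ := h.rows.nx_mem c1
    have ne : G.ρ lc ≠ G.ρ R := fun k => h.vz.ne (q.hc.2.symm.trans (h.rows.inj c1 h.R1 k ▸ aR))
    refine h.rows.inj m1 h.R1 (by_contra fun k => q.hc.1.2.2 (q.hc.2.trans (h.link c1 h.R1
      (q.hc.2 ▸ (h.aa c1).symm) (vR h w) m1 (by omega) (by omega)).symm))
  obtain ⟨G, z, g, h, s, la⟩ := last h0 w0
  have w := pw_sm w0 s
  rw [← np_sm s, ← Sm.nx h0 h s h0.L1] at np0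
  rw [← np_sm s, ← Sm.nx h0 h s h0.R1] at c
  rw [← s.eΓ, ← Sm.nx h0 h s h0.R1] at n0
  rw [← s.eΓ]
  have nt := notp h w np0 c
  by_cases l : G.ρ (G.xl z) + 1 < G.ρ (G.xr z)
  · exact lz J G v z g L R h w ⟨l, Or.inr nt⟩
  by_cases a : G.Γ.Adj v L
  · exact goodV h w n0 la g1 l a
  have gd := good h w n0 la a np0
  by_cases b : ∃ t ∈ (Bd G L).I, G.Γ.Adj t v ∧ G.Γ.Adj t (G.an L)
  · obtain ⟨t, m, b1, b2⟩ := b
    exact md_app g1 h l fun _ _ _ _ => ⟨gd, Or.inr ⟨t, m, b1, Or.inr b2⟩⟩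
  by_cases wr : FP.Wrap G z L
  swap
  · exact md_app g0 h l fun _ _ _ _ => ⟨gd, wr⟩
  obtain ⟨n1, n2, -⟩ := h.rows.nx_mem h.R1
  obtain ⟨⟨-, -⟩, ⟨r1, -⟩, ft⟩ := h.feet
  have lt := gd.1.lt
  have xle := h.xle
  have up : G.ρ (G.an (G.nx R)) ≤ G.ρ (G.an L) + G.nn 0 := by
    obtain ⟨lb, lc, q⟩ := pf_tq h (not_lt.1 l)
    obtain ⟨s1, s2, s3, s4, -⟩ := h.tf.shift h.L1 (h.pr _) 1
    have o := q.ord.2.2.2.2.2.2.2
    have ne : G.ρ R ≠ G.ρ (tr ((1 : ℤ) • G.w) L) := fun k => rungL h w (by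
      have := h.iD.2.1
      rwa [h.rows.inj h.R1 s1 k, h.tf.atr, h.eV, kt_tr, ← h.eV] at this)
    have := (h.tf.mono' n1 (h.pr _) s1 s2 (by omega)).1
    rw [s4, (h.tf.xo _ (rungR h w)).1, (h.tf.xo _ (rungL h w)).1] at this
    simpa using this
  have lo := h.ftR (anR0 h w) (h.aa n1)
  have gp := orb_gap h.rows (anL0 h w) r1 wr.symm (by omega)
  have eR := h.rows.inj (anR0 h w) r1 (by omega)
  obtain ⟨G1, z1, f1, h1, s1, la1⟩ := last (pf_mir h) (pw_mir w)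
  have w1 := pw_sm (pw_mir w) s1
  have e1 : G1.nx (G.nx L) = L :=
    (Sm.nx (pf_mir h) h1 s1 (h.rows.nx_mem h.L1).1).trans (mir_nx_nx h.rows h.iA.1)
  have e2 : G1.nx (G.nx R) = R := (Sm.nx (pf_mir h) h1 s1 n1).trans (mir_nx_nx h.rows h.iD.1)
  have eΓ : G1.Γ = G.Γ := s1.eΓ
  rw [← eΓ]
  by_cases l1 : G1.ρ (G1.xl z1) + 1 < G1.ρ (G1.xr z1)
  · exact lz J G1 v z1 f1 _ _ h1 w1 ⟨l1, Or.inr ((notp_sm s1).2 nt)⟩
  have gd1 := good h1 w1 (by rwa [e1, eΓ]) la1 (by rwa [eΓ]) (by rw [e2]; exact (np_sm s1).2 c)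
  refine md_app g0 h1 l1 fun _ _ _ _ => ⟨gd1, fun k => ?_⟩
  obtain ⟨-, ⟨x0, xz⟩, -⟩ := h1.feet
  have lt1 := gd1.1.lt.trans_le h1.xle
  have ea : G1.an (G.nx R) = G.xr z := (s1.ea _ (h.rows.la n1) (rungR h w)).trans eR
  unfold FP.Wrap at k wr
  rw [ea] at k lt1
  rw [s1.eρ] at lt1
  rw [s1.eL] at x0
  rw [eΓ] at xz
  have vz : G.Γ.Adj v z1 := eΓ ▸ h1.vz
  have lt2 : G.ρ (G1.xr z1) < G.ρ (G.xr z) := neg_lt_neg_iff.1 lt1
  have lt3 : G.ρ (G.an L) < G.ρ (G1.xr z1) := by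
    rcases pa h vz x0 xz with m | m | m | m | m
    · exact lt.trans_le (ft _ x0 (m ▸ xz)).1
    · exact absurd (m ▸ vz) a
    · exact absurd (m ▸ vz) n0
    · exact (inL h w m xz x0).1.lt_of_ne fun e =>
        b ⟨z1, h.bI h.L1 ▸ m, vz.symm, h.rows.inj (anL0 h w) x0 e ▸ xz⟩
    · exact absurd ⟨_, x0, xz⟩ (la z1 m vz)
  have := orb_gap h.rows (anL0 h w) x0 (k.symm.trans wr.symm) lt3
  omega

end Pool.Agent.P.MP_08fd93_co.FY
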